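import Pool.Agent.helper64.OT.SpecG

set_option autoImplicit false

namespace Pool.Agent.OG

open Finset Pool.Agent.OT Pool.Agent.SPI Pool.Agent.helper85.PG
open scoped Pointwise

theorem LST (hPLN : Pool.Agent.SPI.PLN_stmt) : LST_stmt := by
  classical
  intro p _ J V R hV hdis hR
  have hinj : Set.InjOn (fun z : ZMod p × ZMod p => z.1 + z.2) ((J ×ˢ V : Finset (ZMod p × ZMod p)) : Set (ZMod p × ZMod p)) := by
    rintro ⟨y, v⟩ h ⟨y', v'⟩ h' e
    rw [Finset.mem_coe, mem_product] at h h'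
    have e' : y + v = y' + v' := e
    have hy := hdis y h.1 y' h'.1 v h.2 v' h'.2 e'
    rw [hy, add_right_inj] at e'
    rw [hy, e']
  let U : Finset (ZMod p) := (J ×ˢ V).image fun z => z.1 + z.2
  have hU : U.card = J.card * V.card := by
    rw [card_image_of_injOn hinj, card_product]
  have hft : ∀ r : ZMod p, ft U (fun _ => 1) r = WY J r * ∑ v ∈ V, ps (r * v) := by
    intro r
    unfold ft WY
    rw [sum_image hinj, sum_product, sum_mul_sum]
    refine sum_congr rfl fun y _ => sum_congr rfl fun v _ => ?_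
    unfold ps
    rw [one_mul, mul_add, AddChar.map_add_eq_mul]
  have h1 := hPLN p U (fun _ => 1)
  have h2 : ∑ a ∈ U, ‖(1 : ℂ)‖ ^ 2 = (J.card : ℝ) * V.card := by
    rw [norm_one, one_pow, sum_const, hU, nsmul_eq_mul, mul_one]
    push_cast
    rfl
  rw [h2] at h1
  have hVpos : (0 : ℝ) < V.card := by exact_mod_cast hV.card_pos
  have h3 : ∑ r ∈ R, ‖WY J r‖ ^ 2 * (V.card : ℝ) ^ 2 ≤ 4 * ∑ t : ZMod p, ‖ft U (fun _ => 1) t‖ ^ 2 := by
    rw [mul_sum]
    refine (sum_le_sum (f := fun r => ‖WY J r‖ ^ 2 * (V.card : ℝ) ^ 2) (g := fun r => 4 * ‖ft U (fun _ => 1) r‖ ^ 2) fun r hr => ?_).trans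
      (sum_le_sum_of_subset_of_nonneg (subset_univ R) fun t _ _ => by positivity)
    have h4 := hR r hr
    simp only [hft r, norm_mul]
    have h5 : (V.card : ℝ) ^ 2 ≤ (2 * ‖∑ v ∈ V, ps (r * v)‖) ^ 2 := pow_le_pow_left₀ hVpos.le h4 2
    have h6 : 0 ≤ ‖WY J r‖ ^ 2 := by positivity
    nlinarith
  rw [h1, ← sum_mul] at h3
  rw [le_div_iff₀ hVpos]
  have h7 : (∑ r ∈ R, ‖WY J r‖ ^ 2) * V.card * V.card ≤ (4 * p * J.card) * V.card := by
    nlinarith
  exact le_of_mul_le_mul_right h7 hVpos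

end Pool.Agent.OG
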