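import Mathlib
import Pool.Agent.helper64.OT.SpecI

/-!
# Row `ol:TIL` (MP_f6e9a2_nt): tiles
-/

set_option autoImplicit false

namespace Pool.Agent.OL

open Finset Pool.Agent.OT Pool.Agent.SPI Pool.Agent.helper85.PG
open scoped Pointwise

/-- a sum over a cell as a sum over `range h` -/
theorem TIL_re {p : ℕ} [Fact p.Prime] {M : Type*} [AddCommMonoid M] (h : ℕ) (hh : 0 < h) (X : Finset (ZMod p)) (j : ℕ)
    (F : ZMod p → M) :
    ∑ x ∈ cell h X j, F x = ∑ u ∈ range h,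
      if j * h + u < p ∧ ((j * h + u : ℕ) : ZMod p) ∈ X then F ((j * h + u : ℕ) : ZMod p) else 0 := by
  rw [← Finset.sum_filter]
  refine Finset.sum_nbij' (fun x => x.val % h) (fun u => ((j * h + u : ℕ) : ZMod p)) ?_ ?_ ?_ ?_ ?_
  · intro x hx
    obtain ⟨hX, hj⟩ := Finset.mem_filter.mp hx
    have h1 : j * h + x.val % h = x.val := by
      rw [← hj, Nat.mul_comm]
      exact Nat.div_add_mod _ _
    refine Finset.mem_filter.mpr ⟨Finset.mem_range.mpr (Nat.mod_lt _ hh), ?_, ?_⟩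
    · rw [h1]
      exact ZMod.val_lt x
    · rw [h1, ZMod.natCast_zmod_val]
      exact hX
  · intro u hu
    obtain ⟨hu1, hu2, hu3⟩ := Finset.mem_filter.mp hu
    refine Finset.mem_filter.mpr ⟨hu3, ?_⟩
    rw [ZMod.val_natCast_of_lt hu2]
    rw [Nat.mul_comm, Nat.mul_add_div hh, Nat.div_eq_of_lt (Finset.mem_range.mp hu1), Nat.add_zero]
  · intro x hx
    obtain ⟨hX, hj⟩ := Finset.mem_filter.mp hx
    have h1 : j * h + x.val % h = x.val := by
      rw [← hj, Nat.mul_comm]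
      exact Nat.div_add_mod _ _
    show ((j * h + x.val % h : ℕ) : ZMod p) = x
    rw [h1, ZMod.natCast_zmod_val]
  · intro u hu
    obtain ⟨hu1, hu2, hu3⟩ := Finset.mem_filter.mp hu
    show (((j * h + u : ℕ) : ZMod p)).val % h = u
    rw [ZMod.val_natCast_of_lt hu2, Nat.mul_comm, Nat.mul_add_mod, Nat.mod_eq_of_lt (Finset.mem_range.mp hu1)]
  · intro x hx
    obtain ⟨hX, hj⟩ := Finset.mem_filter.mp hx
    have h1 : j * h + x.val % h = x.val := by
      rw [← hj, Nat.mul_comm]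
      exact Nat.div_add_mod _ _
    show F x = F ((j * h + x.val % h : ℕ) : ZMod p)
    rw [h1, ZMod.natCast_zmod_val]

/-- splitting a sum into cells -/
theorem TIL_split {p : ℕ} {M : Type*} [AddCommMonoid M] (h : ℕ) (X : Finset (ZMod p)) (F : ZMod p → M) :
    ∑ j ∈ cells h X, ∑ x ∈ cell h X j, F x = ∑ x ∈ X, F x :=
  Finset.sum_fiberwise_of_maps_to (fun x hx => Finset.mem_image_of_mem _ hx) F

/-- one tile -/
theorem TIL_tile (hQRR : QRR_stmt) (hRRB : RRB_stmt) {p : ℕ} [Fact p.Prime] (χ : MulChar (ZMod p) ℂ) (h M : ℕ)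
    (hM : 0 < M) (hMh : 2 * M ≤ h) (X B : Finset (ZMod p)) (α β : ZMod p → ℂ) (hα : ∀ x, ‖α x‖ ≤ 1)
    (hβ : ∀ b, ‖β b‖ ≤ 1) (j i : ℕ) :
    ‖∑ x ∈ cell h X j, ∑ b ∈ cell h B i, α x * (β b * χ (x + b))‖ ^ 2 ≤
      ((cell h X j).card : ℝ) * ∑ b ∈ cell h B i, RR χ 1 h M (((j * h : ℕ) : ZMod p) + b) := by
  have hh : 0 < h := by omega
  have hq := hQRR p χ 1 0 (((j * h : ℕ) : ZMod p) + ((i * h : ℕ) : ZMod p)) h M
    (fun y => if i * h + y < p ∧ ((i * h + y : ℕ) : ZMod p) ∈ B then β ((i * h + y : ℕ) : ZMod p) else 0)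
    (fun x => if j * h + x < p ∧ ((j * h + x : ℕ) : ZMod p) ∈ X then α ((j * h + x : ℕ) : ZMod p) else 0) hM
  have e1 : ∑ x ∈ cell h X j, ∑ b ∈ cell h B i, α x * (β b * χ (x + b)) =
      ∑ x ∈ range h, ∑ y ∈ range h, (χ (((j * h : ℕ) : ZMod p) + ((i * h : ℕ) : ZMod p) + (x : ZMod p) + 1 * (y : ZMod p)) *
        (ZMod.stdAddChar ((((j * h : ℕ) : ZMod p) + ((i * h : ℕ) : ZMod p) + (x : ZMod p) + 1 * (y : ZMod p)) * 0) : ℂ)) *
        (if i * h + y < p ∧ ((i * h + y : ℕ) : ZMod p) ∈ B then β ((i * h + y : ℕ) : ZMod p) else 0) *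
        (if j * h + x < p ∧ ((j * h + x : ℕ) : ZMod p) ∈ X then α ((j * h + x : ℕ) : ZMod p) else 0) := by
    rw [TIL_re h hh X j]
    refine Finset.sum_congr rfl fun x _ => ?_
    rw [TIL_re h hh B i]
    by_cases hx : j * h + x < p ∧ ((j * h + x : ℕ) : ZMod p) ∈ X
    · rw [if_pos hx]
      refine Finset.sum_congr rfl fun y _ => ?_
      rw [if_pos hx]
      by_cases hy : i * h + y < p ∧ ((i * h + y : ℕ) : ZMod p) ∈ B
      · rw [if_pos hy, if_pos hy, mul_zero, AddChar.map_zero_eq_one, mul_one]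
        have e : ((j * h + x : ℕ) : ZMod p) + ((i * h + y : ℕ) : ZMod p) =
            ((j * h : ℕ) : ZMod p) + ((i * h : ℕ) : ZMod p) + (x : ZMod p) + 1 * (y : ZMod p) := by
          push_cast
          ring
        rw [e]
        ring
      · rw [if_neg hy, if_neg hy, mul_zero, zero_mul]
    · rw [if_neg hx]
      refine (Finset.sum_eq_zero fun y _ => ?_).symm
      rw [if_neg hx, mul_zero]
  rw [e1]
  refine hq.trans ?_
  have hR0 : ∀ s, 0 ≤ RR χ 1 h M s := fun s => (hRRB p χ 1 s h M hM hMh).1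
  have e2 : ∑ x ∈ range h, ‖(if j * h + x < p ∧ ((j * h + x : ℕ) : ZMod p) ∈ X then α ((j * h + x : ℕ) : ZMod p) else 0)‖ ^ 2
      ≤ ((cell h X j).card : ℝ) := by
    have e3 : ((cell h X j).card : ℝ) = ∑ x ∈ cell h X j, (1 : ℝ) := by simp
    rw [e3, TIL_re h hh X j]
    refine Finset.sum_le_sum fun x _ => ?_
    split_ifs
    · have := hα ((j * h + x : ℕ) : ZMod p)
      have h0 := norm_nonneg (α ((j * h + x : ℕ) : ZMod p))
      nlinarith
    · simp
  have e4 : ∑ y ∈ range h, ‖(if i * h + y < p ∧ ((i * h + y : ℕ) : ZMod p) ∈ B then β ((i * h + y : ℕ) : ZMod p) else 0)‖ ^ 2 *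
      RR χ 1 h M (((j * h : ℕ) : ZMod p) + ((i * h : ℕ) : ZMod p) + 1 * (y : ZMod p)) ≤
      ∑ b ∈ cell h B i, RR χ 1 h M (((j * h : ℕ) : ZMod p) + b) := by
    rw [TIL_re h hh B i]
    refine Finset.sum_le_sum fun y _ => ?_
    split_ifs with hy
    · have e : ((j * h : ℕ) : ZMod p) + ((i * h + y : ℕ) : ZMod p) =
          ((j * h : ℕ) : ZMod p) + ((i * h : ℕ) : ZMod p) + 1 * (y : ZMod p) := by
        push_cast
        ring
      rw [e]
      have h1 := hβ ((i * h + y : ℕ) : ZMod p)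
      have h0 := norm_nonneg (β ((i * h + y : ℕ) : ZMod p))
      have h2 : ‖β ((i * h + y : ℕ) : ZMod p)‖ ^ 2 ≤ 1 := by nlinarith
      have h3 := hR0 (((j * h : ℕ) : ZMod p) + ((i * h : ℕ) : ZMod p) + 1 * (y : ZMod p))
      calc _ ≤ 1 * RR χ 1 h M (((j * h : ℕ) : ZMod p) + ((i * h : ℕ) : ZMod p) + 1 * (y : ZMod p)) :=
            mul_le_mul_of_nonneg_right h2 h3
        _ = _ := one_mul _
    · simp
  refine mul_le_mul e2 e4 (Finset.sum_nonneg fun y _ => mul_nonneg (sq_nonneg _) (hR0 _)) (Nat.cast_nonneg _)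

/-- the numerical step in a tile -/
theorem TIL_num (s a b n lam h : ℝ) (ha : 0 ≤ a) (hb : 0 ≤ b) (hl : 0 ≤ lam) (hh : 0 ≤ h) (hn : 0 ≤ n)
    (hn2 : n ≤ n ^ 2) (hs : s ^ 2 ≤ a * (lam * h ^ 2 * b + 3 * h ^ 2 * n)) :
    s ≤ Real.sqrt a * (Real.sqrt lam * h * Real.sqrt b + Real.sqrt 3 * h * n) := by
  have hR : 0 ≤ Real.sqrt a * (Real.sqrt lam * h * Real.sqrt b + Real.sqrt 3 * h * n) := by positivity
  by_contra hcon
  push Not at hcon
  have h1 : (Real.sqrt a * (Real.sqrt lam * h * Real.sqrt b + Real.sqrt 3 * h * n)) ^ 2 < s ^ 2 :=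
    pow_lt_pow_left₀ hcon hR two_ne_zero
  have h2 : (Real.sqrt a * (Real.sqrt lam * h * Real.sqrt b + Real.sqrt 3 * h * n)) ^ 2 =
      a * (lam * h ^ 2 * b + 3 * h ^ 2 * n ^ 2 + 2 * (Real.sqrt lam * Real.sqrt 3 * Real.sqrt b * h ^ 2 * n)) := by
    have ea := Real.sq_sqrt ha
    have eb := Real.sq_sqrt hb
    have el := Real.sq_sqrt hl
    have e3 := Real.sq_sqrt (show (0 : ℝ) ≤ 3 by norm_num)
    calc _ = (Real.sqrt a) ^ 2 * ((Real.sqrt lam) ^ 2 * h ^ 2 * (Real.sqrt b) ^ 2 + (Real.sqrt 3) ^ 2 * h ^ 2 * n ^ 2 +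
          2 * (Real.sqrt lam * Real.sqrt 3 * Real.sqrt b * h ^ 2 * n)) := by ring
      _ = _ := by rw [ea, eb, el, e3]
  have h3 : a * (lam * h ^ 2 * b + 3 * h ^ 2 * n) ≤
      a * (lam * h ^ 2 * b + 3 * h ^ 2 * n ^ 2 + 2 * (Real.sqrt lam * Real.sqrt 3 * Real.sqrt b * h ^ 2 * n)) := by
    refine mul_le_mul_of_nonneg_left ?_ ha
    have h4 : 0 ≤ Real.sqrt lam * Real.sqrt 3 * Real.sqrt b * h ^ 2 * n := by positivity
    have h5 : 3 * h ^ 2 * n ≤ 3 * h ^ 2 * n ^ 2 := mul_le_mul_of_nonneg_left hn2 (by positivity)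
    linarith
  linarith

/-- Cauchy-Schwarz for the square roots of the cardinalities of the cells -/
theorem TIL_cs {p : ℕ} (h : ℕ) (X : Finset (ZMod p)) :
    ∑ j ∈ cells h X, Real.sqrt ((cell h X j).card : ℝ) ≤ Real.sqrt ((cells h X).card * X.card) := by
  refine Real.le_sqrt_of_sq_le ?_
  refine (sq_sum_le_card_mul_sum_sq).trans (le_of_eq ?_)
  have h1 : ∑ j ∈ cells h X, Real.sqrt ((cell h X j).card : ℝ) ^ 2 = (X.card : ℝ) := by
    have h2 : ∀ j ∈ cells h X, Real.sqrt ((cell h X j).card : ℝ) ^ 2 = ∑ x ∈ cell h X j, (1 : ℝ) := by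
      intro j _
      rw [Real.sq_sqrt (Nat.cast_nonneg _)]
      simp
    rw [Finset.sum_congr rfl h2, TIL_split h X (fun _ => (1 : ℝ))]
    simp
  rw [h1]

/-- phases -/
theorem TIL_phase (z : ℂ) : ∃ a : ℂ, ‖a‖ ≤ 1 ∧ a * z = (‖z‖ : ℂ) := by
  by_cases hz : z = 0
  · exact ⟨0, by simp, by simp [hz]⟩
  · have hz' : ‖z‖ ≠ 0 := norm_ne_zero_iff.mpr hz
    refine ⟨(starRingEnd ℂ) z / (‖z‖ : ℂ), ?_, ?_⟩
    · rw [norm_div, RCLike.norm_conj, Complex.norm_real, norm_norm, div_self hz']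
    · have h1 : (‖z‖ : ℂ) ≠ 0 := Complex.ofReal_ne_zero.mpr hz'
      rw [div_mul_eq_mul_div, Complex.conj_mul', sq, mul_div_assoc, div_self h1, mul_one]

/-- Row TIL. -/
theorem TIL (hQRR : QRR_stmt) (hRRB : RRB_stmt) (hTIC : TIC_stmt) : TIL_stmt := by
  intro p _ χ h M X B β lam R hM hMh hlam hR hβ hS
  have hh : 0 < h := by omega
  obtain ⟨D, hD⟩ : ∃ D : Finset (ZMod p), D = univ.filter fun s => lam * (h : ℝ) ^ 2 < RR χ 1 h M s := ⟨_, rfl⟩
  obtain ⟨hT1, hT2⟩ := hTIC p h D R hh (fun S hSD hsep => hS S (fun s hs => by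
    have := hSD hs
    rw [hD] at this
    exact (Finset.mem_filter.mp this).2) hsep)
  -- the indicator of the bad pairs
  obtain ⟨io, hio⟩ : ∃ io : ℕ → ZMod p → ℝ, ∀ j b, io j b = if ((j * h : ℕ) : ZMod p) + b ∈ D then 1 else 0 :=
    ⟨fun j b => if ((j * h : ℕ) : ZMod p) + b ∈ D then 1 else 0, fun _ _ => rfl⟩
  have hio0 : ∀ j b, 0 ≤ io j b := by
    intro j b
    rw [hio]
    split_ifs <;> norm_num
  have hio2 : ∀ j b, io j b * io j b = io j b := by
    intro j b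
    rw [hio]
    split_ifs <;> norm_num
  have hA1 : ∀ b, ∑ j ∈ cells h X, io j b ≤ 2 * R := by
    intro b
    have h1 := hT1 (cells h X) b (fun j hj => by
      obtain ⟨x, -, rfl⟩ := Finset.mem_image.mp hj
      exact lt_of_le_of_lt (Nat.div_mul_le_self _ _) (ZMod.val_lt x))
    have h2 : ∑ j ∈ cells h X, io j b = (((cells h X).filter fun j => ((j * h : ℕ) : ZMod p) + b ∈ D).card : ℝ) := by
      rw [← Finset.sum_boole]
      exact Finset.sum_congr rfl fun j _ => hio j b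
    rw [h2]
    exact h1
  have hA2 : ∀ j, ∑ b ∈ B, io j b ≤ h * R := by
    intro j
    have h2 : ∑ b ∈ B, io j b = ((B.filter fun b => ((j * h : ℕ) : ZMod p) + b ∈ D).card : ℝ) := by
      rw [← Finset.sum_boole]
      exact Finset.sum_congr rfl fun b _ => hio j b
    rw [h2]
    exact hT2 B j
  -- the phases
  choose α hα1 hα2 using fun x : ZMod p => TIL_phase (FB χ B β x)
  have hsum : ((∑ x ∈ X, ‖FB χ B β x‖ : ℝ) : ℂ) =
      ∑ j ∈ cells h X, ∑ i ∈ cells h B, ∑ x ∈ cell h X j, ∑ b ∈ cell h B i, α x * (β b * χ (x + b)) := by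
    have h1 : ∀ j ∈ cells h X, ∑ i ∈ cells h B, ∑ x ∈ cell h X j, ∑ b ∈ cell h B i, α x * (β b * χ (x + b)) =
        ∑ x ∈ cell h X j, (‖FB χ B β x‖ : ℂ) := by
      intro j _
      rw [Finset.sum_comm]
      refine Finset.sum_congr rfl fun x _ => ?_
      rw [TIL_split h B (fun b => α x * (β b * χ (x + b))), ← Finset.mul_sum]
      exact hα2 x
    rw [Finset.sum_congr rfl h1, TIL_split h X (fun x => (‖FB χ B β x‖ : ℂ))]
    push_cast
    rfl
  have hnorm : ∑ x ∈ X, ‖FB χ B β x‖ ≤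
      ∑ j ∈ cells h X, ∑ i ∈ cells h B, ‖∑ x ∈ cell h X j, ∑ b ∈ cell h B i, α x * (β b * χ (x + b))‖ := by
    have h1 : ∑ x ∈ X, ‖FB χ B β x‖ = ‖((∑ x ∈ X, ‖FB χ B β x‖ : ℝ) : ℂ)‖ := by
      rw [Complex.norm_real, Real.norm_of_nonneg (Finset.sum_nonneg fun x _ => norm_nonneg _)]
    rw [h1, hsum]
    refine (norm_sum_le _ _).trans (Finset.sum_le_sum fun j _ => norm_sum_le _ _)
  -- one tile
  have htile : ∀ j i, ‖∑ x ∈ cell h X j, ∑ b ∈ cell h B i, α x * (β b * χ (x + b))‖ ≤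
      Real.sqrt ((cell h X j).card : ℝ) * (Real.sqrt lam * h * Real.sqrt ((cell h B i).card : ℝ) +
        Real.sqrt 3 * h * ∑ b ∈ cell h B i, io j b) := by
    intro j i
    have hn : ∑ b ∈ cell h B i, io j b = ((((cell h B i).filter fun b => ((j * h : ℕ) : ZMod p) + b ∈ D).card : ℕ) : ℝ) := by
      rw [← Finset.sum_boole]
      exact Finset.sum_congr rfl fun b _ => hio j b
    refine TIL_num _ _ _ _ lam h (Nat.cast_nonneg _) (Nat.cast_nonneg _) hlam (Nat.cast_nonneg _)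
      (Finset.sum_nonneg fun b _ => hio0 j b) ?_ ?_
    · rw [hn]
      exact_mod_cast Nat.le_self_pow two_ne_zero _
    · refine (TIL_tile hQRR hRRB χ h M hM hMh X B α β hα1 hβ j i).trans ?_
      refine mul_le_mul_of_nonneg_left ?_ (Nat.cast_nonneg _)
      have h1 : ∀ b ∈ cell h B i, RR χ 1 h M (((j * h : ℕ) : ZMod p) + b) ≤ lam * (h : ℝ) ^ 2 + 3 * (h : ℝ) ^ 2 * io j b := by
        intro b _
        rw [hio]
        have h3 := (hRRB p χ 1 (((j * h : ℕ) : ZMod p) + b) h M hM hMh).2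
        split_ifs with hb
        · have : 0 ≤ lam * (h : ℝ) ^ 2 := by positivity
          linarith
        · rw [hD, Finset.mem_filter, not_and] at hb
          have h4 := hb (Finset.mem_univ _)
          push Not at h4
          linarith
      refine (Finset.sum_le_sum h1).trans (le_of_eq ?_)
      rw [Finset.sum_add_distrib, Finset.sum_const, nsmul_eq_mul, ← Finset.mul_sum]
      ring
  -- the two parts
  have hpart1 : ∑ j ∈ cells h X, ∑ i ∈ cells h B, Real.sqrt ((cell h X j).card : ℝ) *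
      (Real.sqrt lam * h * Real.sqrt ((cell h B i).card : ℝ)) ≤
      Real.sqrt lam * h * Real.sqrt ((cells h X).card * (cells h B).card) * Real.sqrt (X.card * B.card) := by
    have e : ∑ j ∈ cells h X, ∑ i ∈ cells h B, Real.sqrt ((cell h X j).card : ℝ) *
        (Real.sqrt lam * h * Real.sqrt ((cell h B i).card : ℝ)) =
        Real.sqrt lam * h * ((∑ j ∈ cells h X, Real.sqrt ((cell h X j).card : ℝ)) *
          ∑ i ∈ cells h B, Real.sqrt ((cell h B i).card : ℝ)) := by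
      rw [Finset.sum_mul_sum, Finset.mul_sum]
      refine Finset.sum_congr rfl fun j _ => ?_
      rw [Finset.mul_sum]
      refine Finset.sum_congr rfl fun i _ => ?_
      ring
    rw [e]
    have e2 : Real.sqrt lam * h * Real.sqrt ((cells h X).card * (cells h B).card) * Real.sqrt (X.card * B.card) =
        Real.sqrt lam * h * (Real.sqrt ((cells h X).card * X.card) * Real.sqrt ((cells h B).card * B.card)) := by
      rw [mul_assoc, ← Real.sqrt_mul (by positivity), ← Real.sqrt_mul (by positivity)]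
      congr 2
      ring
    rw [e2]
    refine mul_le_mul_of_nonneg_left ?_ (by positivity)
    exact mul_le_mul (TIL_cs h X) (TIL_cs h B) (Finset.sum_nonneg fun i _ => Real.sqrt_nonneg _) (Real.sqrt_nonneg _)
  have hT : ∑ j ∈ cells h X, ∑ b ∈ B, Real.sqrt ((cell h X j).card : ℝ) * io j b ≤
      Real.sqrt (2 * R * B.card * (h * R * X.card)) := by
    refine Real.le_sqrt_of_sq_le ?_
    rw [← Finset.sum_product']
    have h1 : ∑ z ∈ cells h X ×ˢ B, Real.sqrt ((cell h X z.1).card : ℝ) * io z.1 z.2 =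
        ∑ z ∈ cells h X ×ˢ B, (Real.sqrt ((cell h X z.1).card : ℝ) * io z.1 z.2) * io z.1 z.2 := by
      refine Finset.sum_congr rfl fun z _ => ?_
      rw [mul_assoc, hio2]
    rw [h1]
    refine (Finset.sum_mul_sq_le_sq_mul_sq _ _ _).trans ?_
    have h2 : ∑ z ∈ cells h X ×ˢ B, (Real.sqrt ((cell h X z.1).card : ℝ) * io z.1 z.2) ^ 2 ≤ h * R * X.card := by
      have h3 : ∀ z ∈ cells h X ×ˢ B, (Real.sqrt ((cell h X z.1).card : ℝ) * io z.1 z.2) ^ 2 =
          ((cell h X z.1).card : ℝ) * io z.1 z.2 := by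
        intro z _
        rw [mul_pow, Real.sq_sqrt (Nat.cast_nonneg _), sq (io z.1 z.2), hio2]
      rw [Finset.sum_congr rfl h3, Finset.sum_product' (f := fun j b => ((cell h X j).card : ℝ) * io j b)]
      have h4 : ∀ j ∈ cells h X, ∑ b ∈ B, ((cell h X j).card : ℝ) * io j b ≤ ((cell h X j).card : ℝ) * (h * R) := by
        intro j _
        rw [← Finset.mul_sum]
        exact mul_le_mul_of_nonneg_left (hA2 j) (Nat.cast_nonneg _)
      refine (Finset.sum_le_sum h4).trans (le_of_eq ?_)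
      rw [← Finset.sum_mul]
      have h5 : ∑ j ∈ cells h X, ((cell h X j).card : ℝ) = X.card := by
        have h6 : ∀ j ∈ cells h X, ((cell h X j).card : ℝ) = ∑ x ∈ cell h X j, (1 : ℝ) := by
          intro j _
          simp
        rw [Finset.sum_congr rfl h6, TIL_split h X (fun _ => (1 : ℝ))]
        simp
      rw [h5]
      ring
    have h7 : ∑ z ∈ cells h X ×ˢ B, (io z.1 z.2) ^ 2 ≤ 2 * R * B.card := by
      have h3 : ∀ z ∈ cells h X ×ˢ B, (io z.1 z.2) ^ 2 = io z.1 z.2 := by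
        intro z _
        rw [sq, hio2]
      rw [Finset.sum_congr rfl h3, Finset.sum_product' (f := fun j b => io j b), Finset.sum_comm]
      refine (Finset.sum_le_sum fun b _ => hA1 b).trans (le_of_eq ?_)
      rw [Finset.sum_const, nsmul_eq_mul]
      ring
    rw [mul_comm (2 * R * (B.card : ℝ))]
    refine mul_le_mul h2 h7 (Finset.sum_nonneg fun z _ => sq_nonneg _) (by positivity)
  have hpart2 : ∑ j ∈ cells h X, ∑ i ∈ cells h B, Real.sqrt ((cell h X j).card : ℝ) *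
      (Real.sqrt 3 * h * ∑ b ∈ cell h B i, io j b) ≤
      3 * h * R * Real.sqrt h * Real.sqrt (X.card * B.card) := by
    have e : ∑ j ∈ cells h X, ∑ i ∈ cells h B, Real.sqrt ((cell h X j).card : ℝ) *
        (Real.sqrt 3 * h * ∑ b ∈ cell h B i, io j b) =
        Real.sqrt 3 * h * ∑ j ∈ cells h X, ∑ b ∈ B, Real.sqrt ((cell h X j).card : ℝ) * io j b := by
      rw [Finset.mul_sum]
      refine Finset.sum_congr rfl fun j _ => ?_
      rw [← Finset.mul_sum, ← Finset.mul_sum, ← Finset.mul_sum, TIL_split h B (fun b => io j b)]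
      ring
    rw [e]
    have h1 : Real.sqrt 3 * h * ∑ j ∈ cells h X, ∑ b ∈ B, Real.sqrt ((cell h X j).card : ℝ) * io j b ≤
        Real.sqrt 3 * h * Real.sqrt (2 * R * B.card * (h * R * X.card)) :=
      mul_le_mul_of_nonneg_left hT (by positivity)
    refine h1.trans ?_
    have h2 : Real.sqrt 3 * Real.sqrt (2 * R * B.card * (h * R * X.card)) ≤ 3 * R * Real.sqrt h * Real.sqrt (X.card * B.card) := by
      rw [← Real.sqrt_mul (by norm_num)]
      refine (Real.sqrt_le_iff).mpr ⟨by positivity, ?_⟩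
      have e3 : (3 * R * Real.sqrt h * Real.sqrt (X.card * B.card)) ^ 2 = 9 * R ^ 2 * h * (X.card * B.card) := by
        have ea := Real.sq_sqrt (show (0 : ℝ) ≤ h by positivity)
        have eb := Real.sq_sqrt (show (0 : ℝ) ≤ (X.card : ℝ) * B.card by positivity)
        calc _ = 9 * R ^ 2 * (Real.sqrt h) ^ 2 * (Real.sqrt (X.card * B.card)) ^ 2 := by ring
          _ = _ := by rw [ea, eb]
      rw [e3]
      have h4 : 0 ≤ R ^ 2 * h * (X.card * B.card : ℝ) := by positivity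
      nlinarith
    calc Real.sqrt 3 * h * Real.sqrt (2 * R * B.card * (h * R * X.card)) =
        h * (Real.sqrt 3 * Real.sqrt (2 * R * B.card * (h * R * X.card))) := by ring
      _ ≤ h * (3 * R * Real.sqrt h * Real.sqrt (X.card * B.card)) := mul_le_mul_of_nonneg_left h2 (Nat.cast_nonneg _)
      _ = _ := by ring
  refine hnorm.trans ?_
  refine (Finset.sum_le_sum fun j _ => Finset.sum_le_sum fun i _ => htile j i).trans ?_
  have e : ∑ j ∈ cells h X, ∑ i ∈ cells h B, Real.sqrt ((cell h X j).card : ℝ) *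
      (Real.sqrt lam * h * Real.sqrt ((cell h B i).card : ℝ) + Real.sqrt 3 * h * ∑ b ∈ cell h B i, io j b) =
      (∑ j ∈ cells h X, ∑ i ∈ cells h B, Real.sqrt ((cell h X j).card : ℝ) *
        (Real.sqrt lam * h * Real.sqrt ((cell h B i).card : ℝ))) +
      ∑ j ∈ cells h X, ∑ i ∈ cells h B, Real.sqrt ((cell h X j).card : ℝ) *
        (Real.sqrt 3 * h * ∑ b ∈ cell h B i, io j b) := by
    rw [← Finset.sum_add_distrib]
    refine Finset.sum_congr rfl fun j _ => ?_
    rw [← Finset.sum_add_distrib]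
    refine Finset.sum_congr rfl fun i _ => ?_
    ring
  rw [e, add_mul]
  exact add_le_add hpart1 hpart2

end Pool.Agent.OL
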