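import Pool.Agent.helper64.OT.SpecF

set_option autoImplicit false

namespace Pool.Agent.OT

open Finset Pool.Agent.SPI

theorem UNI_cell {p : ℕ} [Fact p.Prime] (N : ℕ) (hN : 0 < N) (B : Finset (ZMod p)) (j : ℕ) : (cell N B j).card ≤ N := by
  classical
  have h : (cell N B j).card ≤ (range N).card := by
    refine Finset.card_le_card_of_injOn (fun b => b.val % N) ?_ ?_
    · intro b _
      rw [Finset.mem_coe, mem_range]
      exact Nat.mod_lt _ hN
    · intro b hb b' hb' h
      unfold cell at hb hb'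
      rw [Finset.mem_coe, mem_filter] at hb hb'
      have h' : b.val % N = b'.val % N := h
      have e1 := Nat.div_add_mod b.val N
      have e2 := Nat.div_add_mod b'.val N
      rw [hb.2, h'] at e1
      rw [hb'.2] at e2
      exact ZMod.val_injective p (e1.symm.trans e2)
  rwa [card_range] at h

theorem UNI_sum {p : ℕ} (N : ℕ) (B : Finset (ZMod p)) : ∑ j ∈ cells N B, (cell N B j).card = B.card :=
  (Finset.card_eq_sum_card_image (fun b : ZMod p => b.val / N) B).symm

theorem UNI_large (ε : ℝ) (hε : 0 < ε) : ∃ p₀ : ℕ, ∀ p : ℕ, p₀ < p → 8 ≤ (p : ℝ) ^ ε := by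
  have h := (tendsto_rpow_atTop hε).comp tendsto_natCast_atTop_atTop
  obtain ⟨p₀, hp⟩ := Filter.eventually_atTop.mp (h.eventually_ge_atTop 8)
  exact ⟨p₀, fun p hpp => hp p hpp.le⟩

/-- the numbers -/
theorem UNI_num (P R M Bc Sj Nr κ δ ε : ℝ) (hP : 1 ≤ P) (hR : 1 ≤ R) (hBc : 0 ≤ Bc) (hSj0 : 0 ≤ Sj)
    (hMR : M * R ≤ Bc) (hSj : Sj ≤ 2 * M * Bc) (hNR : Nr * R ≤ P ^ (1 - ε)) (hRP : P ^ δ ≤ R) (hκδ : κ ≤ δ / 2) (hκε : κ + κ / 8 ≤ ε)
    (hB1 : P ^ (1 / 2 - κ / 8) ≤ Bc) : 5000 * (Nr * R * Bc + Real.sqrt (P * R) * Sj) ≤ 10 ^ 6 * P ^ (1 / 2 - κ) * Bc ^ 2 := by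
  have hP0 : 0 < P := by linarith
  have hR0 : 0 < R := by linarith
  have h1 : Nr * R * Bc ≤ P ^ (1 / 2 - κ) * Bc ^ 2 := by
    have e1 : P ^ (1 - ε) ≤ P ^ (1 / 2 - κ) * P ^ (1 / 2 - κ / 8) := by
      rw [← Real.rpow_add hP0]
      exact Real.rpow_le_rpow_of_exponent_le hP (by linarith)
    calc Nr * R * Bc ≤ P ^ (1 - ε) * Bc := mul_le_mul_of_nonneg_right hNR hBc
      _ ≤ (P ^ (1 / 2 - κ) * P ^ (1 / 2 - κ / 8)) * Bc := mul_le_mul_of_nonneg_right e1 hBc
      _ ≤ (P ^ (1 / 2 - κ) * Bc) * Bc := mul_le_mul_of_nonneg_right (mul_le_mul_of_nonneg_left hB1 (by positivity)) hBc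
      _ = P ^ (1 / 2 - κ) * Bc ^ 2 := by ring
  have h2 : Real.sqrt (P * R) * Sj ≤ 2 * P ^ (1 / 2 - κ) * Bc ^ 2 := by
    have e1 : Sj * R ≤ 2 * Bc ^ 2 := by
      calc Sj * R ≤ 2 * M * Bc * R := mul_le_mul_of_nonneg_right hSj hR0.le
        _ = 2 * (M * R) * Bc := by ring
        _ ≤ 2 * Bc * Bc := by nlinarith
        _ = 2 * Bc ^ 2 := by ring
    have e2 : Real.sqrt (P * R) = P ^ (1 / 2 : ℝ) * Real.sqrt R := by
      rw [Real.sqrt_mul hP0.le, Real.sqrt_eq_rpow P]
    have e3 : P ^ κ ≤ Real.sqrt R := by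
      have : P ^ κ ≤ P ^ (δ / 2) := Real.rpow_le_rpow_of_exponent_le hP hκδ
      refine this.trans ?_
      apply Real.le_sqrt_of_sq_le
      rw [← Real.rpow_mul_natCast hP0.le]
      have : δ / 2 * ((2 : ℕ) : ℝ) = δ := by
        push_cast
        ring
      rw [this]
      exact hRP
    have e4 : P ^ (1 / 2 : ℝ) = P ^ (1 / 2 - κ) * P ^ κ := by
      rw [← Real.rpow_add hP0]
      congr 1
      ring
    have hs : Real.sqrt R * Real.sqrt R = R := Real.mul_self_sqrt hR0.le
    have hs0 : 0 ≤ Real.sqrt R := Real.sqrt_nonneg R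
    calc Real.sqrt (P * R) * Sj = P ^ (1 / 2 - κ) * (P ^ κ * Real.sqrt R * Sj) := by
          rw [e2, e4]
          ring
      _ ≤ P ^ (1 / 2 - κ) * (Real.sqrt R * Real.sqrt R * Sj) := by
          apply mul_le_mul_of_nonneg_left _ (by positivity)
          exact mul_le_mul_of_nonneg_right (mul_le_mul_of_nonneg_right e3 hs0) hSj0
      _ = P ^ (1 / 2 - κ) * (Sj * R) := by
          rw [hs]
          ring
      _ ≤ P ^ (1 / 2 - κ) * (2 * Bc ^ 2) := mul_le_mul_of_nonneg_left e1 (by positivity)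
      _ = 2 * P ^ (1 / 2 - κ) * Bc ^ 2 := by ring
  have h3 : 0 ≤ P ^ (1 / 2 - κ) * Bc ^ 2 := by positivity
  nlinarith

theorem UNI (hMED : MED_stmt) (hD1 : D1_stmt) : UNI_stmt := by
  classical
  intro ε hε
  obtain ⟨δ, p₁, hδ, hCOV⟩ := Pool.Agent.SPI.p_COV ε hε
  have hκ : 0 < min ε δ / 2 := by positivity
  obtain ⟨c₂, p₂, hc₂, hM⟩ := hMED ε (min ε δ / 2) hε hκ
  obtain ⟨p₃, hp₃⟩ := UNI_large ε hε
  refine ⟨min δ c₂, max p₁ (max p₂ p₃), lt_min hδ hc₂, ?_⟩
  intro p _ hp χ N M X B β hχ hβ hN hX hNR hcell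
  have hp1 : p₁ < p := (le_max_left _ _).trans_lt hp
  have hp2 : p₂ < p := ((le_max_left _ _).trans (le_max_right _ _)).trans_lt hp
  have hp3 : p₃ < p := ((le_max_right _ _).trans (le_max_right _ _)).trans_lt hp
  have hP : (1 : ℝ) ≤ p := by exact_mod_cast (Fact.out : p.Prime).one_lt.le
  have hP0 : (0 : ℝ) < p := by linarith
  have hrhs : 0 ≤ Real.sqrt (p * (X.card * B.card)) + (X.card : ℝ) * B.card := by positivity
  rcases B.eq_empty_or_nonempty with hB | hB
  · have h0 : ∑ x ∈ X, ‖FB χ B β x‖ = 0 := by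
      refine Finset.sum_eq_zero fun x _ => ?_
      rw [hB]
      simp [FB]
    rw [h0]
    positivity
  have hR : 1 ≤ (cells N B).card := by
    rw [Nat.one_le_iff_ne_zero, Finset.card_ne_zero]
    exact hB.image _
  have hRr : (1 : ℝ) ≤ ((cells N B).card : ℝ) := by exact_mod_cast hR
  have hNr : (N : ℝ) ≤ (p : ℝ) ^ (1 - ε) := by
    refine le_trans ?_ hNR
    exact le_mul_of_one_le_right (Nat.cast_nonneg _) hRr
  rcases le_or_gt ((cells N B).card : ℝ) ((p : ℝ) ^ δ) with hRd | hRd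
  · -- few cells
    have h1 := hCOV p hp1 X B {0} ((cells N B).image fun j : ℕ => ((j * N : ℕ) : ZMod p)) 1 1 N one_ne_zero one_ne_zero hNr
      (by
        rw [card_singleton, Nat.cast_one]
        exact Real.one_le_rpow hP hδ.le)
      (by
        refine le_trans ?_ hRd
        exact_mod_cast card_image_le)
      (by
        intro a ha
        refine ⟨0, mem_singleton_self 0, a.val, hX a ha, ?_⟩
        rw [mul_one, zero_add, ZMod.natCast_zmod_val])
      (by
        intro b hb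
        refine ⟨((b.val / N * N : ℕ) : ZMod p), mem_image.mpr ⟨b.val / N, mem_image.mpr ⟨b, hb, rfl⟩, rfl⟩, b.val % N, Nat.mod_lt _ hN, ?_⟩
        rw [mul_one, ← Nat.cast_add, mul_comm, Nat.div_add_mod, ZMod.natCast_zmod_val])
      χ hχ β hβ
    refine h1.trans (mul_le_mul_of_nonneg_right ?_ hrhs)
    exact Real.rpow_le_rpow_of_exponent_le hP (neg_le_neg (min_le_left _ _))
  · -- many cells
    have hBN : (B.card : ℝ) ≤ (p : ℝ) ^ (1 - ε) := by
      refine le_trans ?_ hNR
      have : B.card ≤ N * (cells N B).card := by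
        rw [← UNI_sum N B, mul_comm, ← smul_eq_mul]
        exact Finset.sum_le_card_nsmul _ _ _ fun j _ => UNI_cell N hN B j
      exact_mod_cast this
    have hXN : (X.card : ℝ) ≤ (p : ℝ) ^ (1 - ε) := by
      refine le_trans ?_ hNr
      have h : X.card ≤ (range N).card := by
        refine Finset.card_le_card_of_injOn (fun b => b.val) ?_ ?_
        · intro b hb
          rw [Finset.mem_coe, mem_range]
          exact hX b hb
        · intro b _ b' _ h
          exact ZMod.val_injective p h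
      rw [card_range] at h
      exact_mod_cast h
    have h8 : 8 * N ≤ p := by
      have h9 : (8 : ℝ) * N ≤ p := by
        calc (8 : ℝ) * N ≤ (p : ℝ) ^ ε * (p : ℝ) ^ (1 - ε) := mul_le_mul (hp₃ p hp3) hNr (Nat.cast_nonneg _) (by positivity)
          _ = p := by
            rw [← Real.rpow_add hP0]
            have : ε + (1 - ε) = 1 := by ring
            rw [this, Real.rpow_one]
      exact_mod_cast h9
    have h1 := hM p hp2 χ N X B β hχ hβ hX hXN (Or.inl hBN) (by
      intro hB1 _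
      refine (hD1 p χ N B β hχ hN h8 hβ).trans ?_
      have hMR : (M : ℝ) * (cells N B).card ≤ B.card := by
        have : M * (cells N B).card ≤ B.card := by
          rw [← UNI_sum N B, mul_comm, ← smul_eq_mul]
          exact Finset.card_nsmul_le_sum _ _ _ fun j hj => (hcell j hj).1
        exact_mod_cast this
      have hSj : ∑ j ∈ cells N B, ((cell N B j).card : ℝ) ^ 2 ≤ 2 * (M : ℝ) * B.card := by
        have e1 : (B.card : ℝ) = ∑ j ∈ cells N B, ((cell N B j).card : ℝ) := by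
          rw [← UNI_sum N B]
          push_cast
          rfl
        rw [e1, Finset.mul_sum]
        refine Finset.sum_le_sum fun j hj => ?_
        rw [pow_two]
        have e2 : ((cell N B j).card : ℝ) ≤ 2 * M := by exact_mod_cast (hcell j hj).2
        exact mul_le_mul_of_nonneg_right e2 (Nat.cast_nonneg _)
      exact UNI_num p (cells N B).card M B.card (∑ j ∈ cells N B, ((cell N B j).card : ℝ) ^ 2) N (min ε δ / 2) δ ε hP hRr (Nat.cast_nonneg _)
        (Finset.sum_nonneg fun j _ => by positivity) hMR hSj hNR hRd.le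
        (by linarith [min_le_right ε δ]) (by linarith [min_le_left ε δ]) hB1)
    refine h1.trans (mul_le_mul_of_nonneg_right ?_ hrhs)
    exact Real.rpow_le_rpow_of_exponent_le hP (neg_le_neg (min_le_right _ _))

end Pool.Agent.OT
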